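import Pool.Agent.H579U.Up

/-!
The dual of the lattice of suborders is semimodular.
-/

set_option autoImplicit false

namespace Pool.Agent.H579U

variable {X : Type*} [PartialOrder X]

/-- add one pair -/
def add1 (R : QOrd X) (a b : X) (h : a ≤ b) (h1 : ∀ x, R.rel x a → x = a ∨ R.rel x b)
    (h2 : ∀ y, R.rel b y → y = b ∨ R.rel a y) : QOrd X where
  rel x y := R.rel x y ∨ (x = a ∧ y = b)
  refl x := Or.inl (R.refl x)
  trans x y z h3 h4 := by
    rcases h3 with h3 | ⟨rfl, rfl⟩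
    · rcases h4 with h4 | ⟨rfl, rfl⟩
      · exact Or.inl (R.trans _ _ _ h3 h4)
      · rcases h1 x h3 with h5 | h5
        · exact Or.inr ⟨h5, rfl⟩
        · exact Or.inl h5
    · rcases h4 with h4 | ⟨h4, rfl⟩
      · rcases h2 z h4 with h5 | h5
        · exact Or.inr ⟨rfl, h5⟩
        · exact Or.inl h5
      · exact Or.inr ⟨rfl, rfl⟩
  le x y h3 := by
    rcases h3 with h3 | ⟨rfl, rfl⟩
    · exact R.le _ _ h3
    · exact h

lemma cover_pair [Finite X] {R T : QOrd X} (h : R ⋖ T) :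
    ∃ a b, ∀ x y, T.rel x y → R.rel x y ∨ (x = a ∧ y = b) := by
  classical
  have hne : ∃ x y, T.rel x y ∧ ¬ R.rel x y := by
    by_contra hcon
    push Not at hcon
    exact h.1.not_ge hcon
  obtain ⟨x0, y0, hx0⟩ := hne
  obtain ⟨p, hp⟩ := Set.Finite.exists_maximalFor (fun p : X × X => {z | p.1 ≤ z ∧ z ≤ p.2})
    {p : X × X | T.rel p.1 p.2 ∧ ¬ R.rel p.1 p.2} (Set.toFinite _) ⟨(x0, y0), hx0⟩
  obtain ⟨a, b⟩ := p
  have hT : T.rel a b := hp.1.1
  have hR : ¬ R.rel a b := hp.1.2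
  have hab : a ≤ b := T.le _ _ hT
  have h1 : ∀ x, R.rel x a → x = a ∨ R.rel x b := by
    intro x hx
    by_contra hcon
    push Not at hcon
    have h3 : T.rel x b := T.trans _ _ _ (h.1.le _ _ hx) hT
    have h4 := hp.2 (j := (x, b)) ⟨h3, hcon.2⟩ (by
      intro z hz
      exact ⟨(R.le _ _ hx).trans hz.1, hz.2⟩)
    have h5 : x ∈ {z | x ≤ z ∧ z ≤ b} := ⟨le_rfl, T.le _ _ h3⟩
    exact hcon.1 (le_antisymm (R.le _ _ hx) (h4 h5).1)
  have h2 : ∀ y, R.rel b y → y = b ∨ R.rel a y := by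
    intro y hy
    by_contra hcon
    push Not at hcon
    have h3 : T.rel a y := T.trans _ _ _ hT (h.1.le _ _ hy)
    have h4 := hp.2 (j := (a, y)) ⟨h3, hcon.2⟩ (by
      intro z hz
      exact ⟨hz.1, hz.2.trans (R.le _ _ hy)⟩)
    have h5 : y ∈ {z | a ≤ z ∧ z ≤ y} := ⟨T.le _ _ h3, le_rfl⟩
    exact hcon.1 (le_antisymm (h4 h5).2 (R.le _ _ hy))
  refine ⟨a, b, ?_⟩
  have h6 : R < add1 R a b hab h1 h2 := by
    refine lt_of_le_not_ge (fun x y hxy => Or.inl hxy) (fun h7 => hR (h7 a b (Or.inr ⟨rfl, rfl⟩)))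
  have h7 : add1 R a b hab h1 h2 ≤ T := by
    rintro x y (hxy | ⟨rfl, rfl⟩)
    · exact h.1.le _ _ hxy
    · exact hT
  have h8 : add1 R a b hab h1 h2 = T := by
    by_contra h9
    exact h.2 h6 (lt_of_le_of_ne h7 h9)
  intro x y hxy
  rw [← h8] at hxy
  exact hxy

instance lower [Finite X] : IsLowerModularLattice (QOrd X) where
  inf_covBy_of_covBy_sup {A B} h := by
    obtain ⟨a, b, hab⟩ := cover_pair h
    have hB : ∀ x y, B.rel x y → A.rel x y ∨ (x = a ∧ y = b) := fun x y hxy =>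
      hab x y ((le_sup_right : B ≤ A ⊔ B) x y hxy)
    constructor
    · refine lt_of_le_not_ge inf_le_right (fun h1 => ?_)
      have h2 : B ≤ A := fun x y hxy => (h1 x y hxy).1
      exact h.1.ne (sup_eq_left.2 h2).symm
    · intro C h1 h2
      have h3 : ∃ x y, C.rel x y ∧ ¬ (A ⊓ B).rel x y := by
        by_contra hcon
        push Not at hcon
        exact h1.not_ge hcon
      obtain ⟨x, y, h4, h5⟩ := h3
      have h6 : B.rel x y := h2.le _ _ h4
      have h7 : ¬ A.rel x y := fun h8 => h5 ⟨h8, h6⟩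
      rcases hB x y h6 with h8 | ⟨rfl, rfl⟩
      · exact h7 h8
      · apply h2.not_ge
        intro u v huv
        rcases hB u v huv with h9 | ⟨rfl, rfl⟩
        · exact h1.le _ _ ⟨h9, huv⟩
        · exact h4

end Pool.Agent.H579U
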