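import Mathlib

/-!
The lattice of the quasi-orders contained in a given quasi-order.
-/

set_option autoImplicit false

namespace Pool.Agent.H579U

/-- A quasi-order (reflexive and transitive relation) on the preordered set `X` which is contained
in the given quasi-order `≤` of `X`. -/
@[ext] structure QOrd (X : Type*) [Preorder X] where
  rel : X → X → Prop
  refl : ∀ x, rel x x
  trans : ∀ x y z, rel x y → rel y z → rel x z
  le : ∀ x y, rel x y → x ≤ y

variable {X : Type*} [Preorder X]

/-- The order is inclusion. -/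
instance : PartialOrder (QOrd X) where
  le R S := ∀ x y, R.rel x y → S.rel x y
  le_refl R x y h := h
  le_trans R S T h1 h2 x y h := h2 x y (h1 x y h)
  le_antisymm R S h1 h2 := by
    ext x y
    exact ⟨h1 x y, h2 x y⟩

lemma le_def {R S : QOrd X} : R ≤ S ↔ ∀ x y, R.rel x y → S.rel x y := Iff.rfl

instance : Lattice (QOrd X) where
  inf R S := ⟨fun x y => R.rel x y ∧ S.rel x y, fun x => ⟨R.refl x, S.refl x⟩,
    fun x y z h1 h2 => ⟨R.trans x y z h1.1 h2.1, S.trans x y z h1.2 h2.2⟩,
    fun x y h => R.le x y h.1⟩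
  sup R S := ⟨fun x y => ∀ T : QOrd X, R ≤ T → S ≤ T → T.rel x y, fun x T _ _ => T.refl x,
    fun x y z h1 h2 T h3 h4 => T.trans x y z (h1 T h3 h4) (h2 T h3 h4),
    fun x y h => h ⟨fun x y => x ≤ y, le_refl, fun _ _ _ => le_trans, fun _ _ h => h⟩
      R.le S.le⟩
  le_sup_left R S x y h := fun T h1 _ => h1 x y h
  le_sup_right R S x y h := fun T _ h2 => h2 x y h
  sup_le R S T h1 h2 x y h := h T h1 h2
  inf_le_left R S x y h := h.1
  inf_le_right R S x y h := h.2
  le_inf R S T h1 h2 x y h := ⟨h1 x y h, h2 x y h⟩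

instance : OrderBot (QOrd X) where
  bot := ⟨fun x y => x = y, fun _ => rfl, fun _ _ _ h1 h2 => h1.trans h2, fun x y h => h ▸ le_rfl⟩
  bot_le R x y h := by
    have h : x = y := h
    rw [h]
    exact R.refl y

instance [Finite X] : Finite (QOrd X) :=
  Finite.of_injective (fun R : QOrd X => R.rel) (fun R S h => by
    ext x y
    exact iff_of_eq (congrFun (congrFun h x) y))

/-- the quasi-order with one pair -/
def pair (a b : X) (h : a ≤ b) : QOrd X where
  rel x y := x = y ∨ (x = a ∧ y = b)
  refl x := Or.inl rfl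
  trans x y z h1 h2 := by
    rcases h1 with rfl | ⟨rfl, rfl⟩
    · exact h2
    · rcases h2 with rfl | ⟨rfl, rfl⟩
      · exact Or.inr ⟨rfl, rfl⟩
      · exact Or.inl rfl
  le x y h1 := by
    rcases h1 with rfl | ⟨rfl, rfl⟩
    · exact le_rfl
    · exact h

lemma pair_le {a b : X} (h : a ≤ b) (R : QOrd X) : pair a b h ≤ R ↔ R.rel a b := by
  constructor
  · intro h1
    exact h1 a b (Or.inr ⟨rfl, rfl⟩)
  · rintro h1 x y (rfl | ⟨rfl, rfl⟩)
    · exact R.refl x
    · exact h1

lemma pair_irred {a b : X} (h : a ≤ b) (hab : a ≠ b) : SupIrred (pair a b h) := by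
  have hatom : IsAtom (pair a b h) := by
    constructor
    · intro h1
      have h2 : (⊥ : QOrd X).rel a b := by
        rw [← h1]
        exact Or.inr ⟨rfl, rfl⟩
      exact hab h2
    · intro R hR
      rw [eq_bot_iff]
      intro x y hxy
      rcases hR.le x y hxy with h1 | ⟨h1, h2⟩
      · exact h1
      · exfalso
        apply hR.not_ge
        rw [pair_le]
        rw [h1, h2] at hxy
        exact hxy
  refine ⟨fun hmin => hatom.1 (eq_bot_iff.2 (hmin bot_le)), ?_⟩
  intro R S hRS
  by_contra hcon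
  push Not at hcon
  have h1 : R ≤ pair a b h := hRS ▸ le_sup_left
  have h2 : S ≤ pair a b h := hRS ▸ le_sup_right
  have h3 := hatom.2 R (lt_of_le_of_ne h1 hcon.1)
  have h4 := hatom.2 S (lt_of_le_of_ne h2 hcon.2)
  rw [h3, h4, sup_idem] at hRS
  exact hatom.1 hRS.symm

/-- counting with an injection -/
lemma half [Finite X] {a b : X} (f : QOrd X → QOrd X) (h1 : ∀ R : QOrd X, R.rel a b → ¬ (f R).rel a b)
    (h2 : ∀ R S : QOrd X, R.rel a b → S.rel a b → f R = f S → R = S) :
    2 * Nat.card {R : QOrd X // R.rel a b} ≤ Nat.card (QOrd X) := by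
  classical
  have e1 : Nat.card (QOrd X) = Nat.card {R : QOrd X // R.rel a b} + Nat.card {R : QOrd X // ¬ R.rel a b} := by
    have := Nat.card_congr (Equiv.sumCompl (fun R : QOrd X => R.rel a b))
    rw [← this, Nat.card_sum]
  have e2 : Nat.card {R : QOrd X // R.rel a b} ≤ Nat.card {R : QOrd X // ¬ R.rel a b} := by
    refine Nat.card_le_card_of_injective (fun R => ⟨f R.1, h1 R.1 R.2⟩) ?_
    intro R S h
    apply Subtype.ext
    exact h2 R.1 S.1 R.2 S.2 (congrArg Subtype.val h)
  omega

/-- remove one covering pair of a partial order -/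
def cut (a b : X) (hab : ∀ y, a ≤ y → y ≤ b → y = a ∨ y = b) (R : QOrd X) (h : a ≠ b) : QOrd X where
  rel x y := R.rel x y ∧ ¬ (x = a ∧ y = b)
  refl x := ⟨R.refl x, fun h1 => h (h1.1.symm.trans h1.2)⟩
  trans x y z h1 h2 := by
    refine ⟨R.trans x y z h1.1 h2.1, ?_⟩
    rintro ⟨rfl, rfl⟩
    rcases hab y (R.le _ _ h1.1) (R.le _ _ h2.1) with rfl | rfl
    · exact h2.2 ⟨rfl, rfl⟩
    · exact h1.2 ⟨rfl, rfl⟩
  le x y h1 := R.le x y h1.1

lemma half_cut [Finite X] {a b : X} (hab : ∀ y, a ≤ y → y ≤ b → y = a ∨ y = b) (h : a ≠ b) :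
    2 * Nat.card {R : QOrd X // R.rel a b} ≤ Nat.card (QOrd X) := by
  refine half (fun R => cut a b hab R h) (fun R _ h1 => h1.2 ⟨rfl, rfl⟩) ?_
  intro R S hR hS e
  ext x y
  have h1 : (cut a b hab R h).rel x y ↔ (cut a b hab S h).rel x y := by
    rw [show cut a b hab R h = cut a b hab S h from e]
  by_cases h2 : x = a ∧ y = b
  · rw [h2.1, h2.2]
    exact ⟨fun _ => hS, fun _ => hR⟩
  · constructor
    · intro h3
      exact (h1.1 ⟨h3, h2⟩).1
    · intro h3
      exact (h1.2 ⟨h3, h2⟩).1

/-- make `b` isolated -/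
def iso (b : X) (R : QOrd X) : QOrd X where
  rel x y := x = y ∨ (R.rel x y ∧ x ≠ b ∧ y ≠ b)
  refl x := Or.inl rfl
  trans x y z h1 h2 := by
    rcases h1 with rfl | h1
    · exact h2
    · rcases h2 with rfl | h2
      · exact Or.inr h1
      · exact Or.inr ⟨R.trans x y z h1.1 h2.1, h1.2.1, h2.2.2⟩
  le x y h1 := by
    rcases h1 with rfl | h1
    · exact le_rfl
    · exact R.le x y h1.1

open Classical in
/-- exchange `a` and `b` -/
noncomputable def swp (a b : X) (h1 : a ≤ b) (h2 : b ≤ a) (R : QOrd X) : QOrd X where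
  rel x y := R.rel (Equiv.swap a b x) (Equiv.swap a b y)
  refl x := R.refl _
  trans x y z h3 h4 := R.trans _ _ _ h3 h4
  le x y h := by
    have e1 : ∀ x : X, x ≤ Equiv.swap a b x ∧ Equiv.swap a b x ≤ x := by
      intro x
      by_cases h3 : x = a
      · rw [h3, Equiv.swap_apply_left]; exact ⟨h1, h2⟩
      · by_cases h4 : x = b
        · rw [h4, Equiv.swap_apply_right]; exact ⟨h2, h1⟩
        · rw [Equiv.swap_apply_of_ne_of_ne h3 h4]; exact ⟨le_rfl, le_rfl⟩
    exact (e1 x).1.trans ((R.le _ _ h).trans (e1 y).2)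

open Classical in
lemma half_swap [Finite X] {a b : X} (h1 : a ≤ b) (h2 : b ≤ a) (h : a ≠ b) :
    2 * Nat.card {R : QOrd X // R.rel a b} ≤ Nat.card (QOrd X) := by
  refine half (a := a) (b := b) (fun R => if R.rel b a then iso b R else swp a b h1 h2 R) ?_ ?_
  · intro R hR
    by_cases h3 : R.rel b a
    · simp only [if_pos h3]
      rintro (h4 | h4)
      · exact h h4
      · exact h4.2.2 rfl
    · simp only [if_neg h3]
      intro h4
      apply h3
      have h5 : R.rel (Equiv.swap a b a) (Equiv.swap a b b) := h4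
      rwa [Equiv.swap_apply_left, Equiv.swap_apply_right] at h5
  · -- the value at `(b, a)` tells the two cases apart
    have key : ∀ R : QOrd X, R.rel a b →
        ((if R.rel b a then iso b R else swp a b h1 h2 R).rel b a ↔ ¬ R.rel b a) := by
      intro R hR
      by_cases h3 : R.rel b a
      · simp only [if_pos h3, h3, not_true, iff_false]
        rintro (h4 | h4)
        · exact h h4.symm
        · exact h4.2.1 rfl
      · simp only [if_neg h3, h3, not_false_iff, iff_true]
        change R.rel (Equiv.swap a b b) (Equiv.swap a b a)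
        rwa [Equiv.swap_apply_left, Equiv.swap_apply_right]
    intro R S hR hS e
    have e0 : (if R.rel b a then iso b R else swp a b h1 h2 R) =
        (if S.rel b a then iso b S else swp a b h1 h2 S) := e
    have e1 : R.rel b a ↔ S.rel b a := by
      have h3 := key R hR
      have h4 := key S hS
      rw [e0] at h3
      exact not_iff_not.1 (h3.symm.trans h4)
    by_cases h3 : R.rel b a
    · have h4 := e1.1 h3
      rw [if_pos h3, if_pos h4] at e0
      -- `R` and `S` on the image of the map `b ↦ a`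
      have g : ∀ T : QOrd X, T.rel a b → T.rel b a → ∀ x y : X,
          (T.rel x y ↔ (iso b T).rel (if x = b then a else x) (if y = b then a else y)) := by
        intro T ht1 ht2 x y
        have u : ∀ x : X, T.rel x (if x = b then a else x) ∧ T.rel (if x = b then a else x) x := by
          intro x
          by_cases hx : x = b
          · rw [if_pos hx, hx]; exact ⟨ht2, ht1⟩
          · rw [if_neg hx]; exact ⟨T.refl x, T.refl x⟩
        have v : ∀ x : X, (if x = b then a else x) ≠ b := by
          intro x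
          by_cases hx : x = b
          · rw [if_pos hx]; exact h
          · rw [if_neg hx]; exact hx
        constructor
        · intro h5
          exact Or.inr ⟨T.trans _ _ _ (u x).2 (T.trans _ _ _ h5 (u y).1), v x, v y⟩
        · rintro (h5 | h5)
          · have h6 := (u x).1
            rw [h5] at h6
            exact T.trans _ _ _ h6 (u y).2
          · exact T.trans _ _ _ (u x).1 (T.trans _ _ _ h5.1 (u y).2)
      ext x y
      rw [g R hR h3 x y, g S hS h4 x y, e0]
    · have h4 : ¬ S.rel b a := fun h5 => h3 (e1.2 h5)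
      rw [if_neg h3, if_neg h4] at e0
      ext x y
      have h5 : (swp a b h1 h2 R).rel (Equiv.swap a b x) (Equiv.swap a b y) ↔
          (swp a b h1 h2 S).rel (Equiv.swap a b x) (Equiv.swap a b y) := by rw [e0]
      have h6 : ∀ T : QOrd X, (swp a b h1 h2 T).rel (Equiv.swap a b x) (Equiv.swap a b y) ↔
          T.rel x y := by
        intro T
        change T.rel (Equiv.swap a b (Equiv.swap a b x)) (Equiv.swap a b (Equiv.swap a b y)) ↔ _
        rw [Equiv.swap_apply_self, Equiv.swap_apply_self]
      rw [h6, h6] at h5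
      exact h5

/-- **the lattice form** -/
theorem exists_pair [Finite X] (hX : ∃ a b : X, a ≠ b ∧ a ≤ b) :
    ∃ a b : X, a ≠ b ∧ a ≤ b ∧ 2 * Nat.card {R : QOrd X // R.rel a b} ≤ Nat.card (QOrd X) := by
  by_cases h : ∃ a b : X, a ≠ b ∧ a ≤ b ∧ b ≤ a
  · obtain ⟨a, b, h1, h2, h3⟩ := h
    exact ⟨a, b, h1, h2, half_swap h2 h3 h1⟩
  · push Not at h
    obtain ⟨a, c, h1, h2⟩ := hX
    -- a minimal element above `a`
    obtain ⟨b, hb⟩ := Set.Finite.exists_minimal (Set.toFinite {y : X | y ≠ a ∧ a ≤ y})
      ⟨c, h1.symm, h2⟩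
    refine ⟨a, b, hb.1.1.symm, hb.1.2, half_cut ?_ hb.1.1.symm⟩
    intro y h3 h4
    by_cases h5 : y = a
    · exact Or.inl h5
    · right
      have h6 := hb.2 ⟨h5, h3⟩ h4
      by_contra h7
      exact h y b h7 h4 h6

end Pool.Agent.H579U
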