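import Pool.Agent.H579U.Sub

/-!
The dual of the lattice of the quasi-orders contained in a given quasi-order.
-/

set_option autoImplicit false

namespace Pool.Agent.H579U

variable {X : Type*} [Preorder X]

instance : OrderTop (QOrd X) where
  top := ⟨fun x y => x ≤ y, le_refl, fun _ _ _ => le_trans, fun _ _ h => h⟩
  le_top R x y h := R.le x y h

/-- the pairs outside `U × V` -/
def mm (U V : Set X) (h1 : Disjoint U V)
    (h2 : ∀ x y z, x ∈ U → x ≤ y → y ≤ z → z ∈ V → y ∈ U ∨ y ∈ V) : QOrd X where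
  rel x y := x ≤ y ∧ ¬ (x ∈ U ∧ y ∈ V)
  refl x := ⟨le_rfl, fun h => Set.disjoint_left.1 h1 h.1 h.2⟩
  trans x y z h3 h4 := by
    refine ⟨h3.1.trans h4.1, ?_⟩
    rintro ⟨h5, h6⟩
    rcases h2 x y z h5 h3.1 h4.1 h6 with h | h
    · exact h4.2 ⟨h, h6⟩
    · exact h3.2 ⟨h5, h⟩
  le x y h := h.1

lemma le_mm {U V : Set X} {h1 : Disjoint U V}
    {h2 : ∀ x y z, x ∈ U → x ≤ y → y ≤ z → z ∈ V → y ∈ U ∨ y ∈ V} (R : QOrd X) :
    R ≤ mm U V h1 h2 ↔ ∀ x y, x ∈ U → y ∈ V → ¬ R.rel x y := by
  constructor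
  · intro h x y hx hy hr
    exact (h x y hr).2 ⟨hx, hy⟩
  · intro h x y hr
    exact ⟨R.le x y hr, fun h3 => h x y h3.1 h3.2 hr⟩

lemma mm_irred {U V : Set X} (h1 : Disjoint U V)
    (h2 : ∀ x y z, x ∈ U → x ≤ y → y ≤ z → z ∈ V → y ∈ U ∨ y ∈ V) {p q : X} (hp : p ∈ U)
    (hq : q ∈ V) (hpq : p ≤ q) (h3 : ∀ u ∈ U, p ≤ u) (h4 : ∀ v ∈ V, v ≤ q) :
    InfIrred (mm U V h1 h2) := by
  have key : ∀ R : QOrd X, mm U V h1 h2 ≤ R → R ≠ mm U V h1 h2 → R.rel p q := by
    intro R hR hne
    have h5 : ¬ R ≤ mm U V h1 h2 := fun h => hne (le_antisymm h hR)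
    rw [le_mm] at h5
    push Not at h5
    obtain ⟨x, y, hx, hy, hr⟩ := h5
    have e1 : R.rel p x := hR p x ⟨h3 x hx, fun h => Set.disjoint_left.1 h1 hx h.2⟩
    have e2 : R.rel y q := hR y q ⟨h4 y hy, fun h => Set.disjoint_left.1 h1 h.1 hy⟩
    exact R.trans _ _ _ e1 (R.trans _ _ _ hr e2)
  have hno : ¬ (mm U V h1 h2).rel p q := fun h => h.2 ⟨hp, hq⟩
  refine ⟨fun hmax => hno ((hmax le_top) p q hpq), ?_⟩
  intro R S hRS
  by_contra hcon
  push Not at hcon
  have e1 := key R (hRS ▸ inf_le_left) hcon.1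
  have e2 := key S (hRS ▸ inf_le_right) hcon.2
  apply hno
  rw [← hRS]
  exact ⟨e1, e2⟩

/-- counting with an injection -/
lemma half' [Finite X] {m : QOrd X} (f : QOrd X → QOrd X)
    (h1 : ∀ R : QOrd X, R ≤ m → ¬ (f R) ≤ m)
    (h2 : ∀ R S : QOrd X, R ≤ m → S ≤ m → f R = f S → R = S) :
    2 * Nat.card {R : QOrd X // R ≤ m} ≤ Nat.card (QOrd X) := by
  classical
  have e1 : Nat.card (QOrd X) = Nat.card {R : QOrd X // R ≤ m} + Nat.card {R : QOrd X // ¬ R ≤ m} := by
    have := Nat.card_congr (Equiv.sumCompl (fun R : QOrd X => R ≤ m))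
    rw [← this, Nat.card_sum]
  have e2 : Nat.card {R : QOrd X // R ≤ m} ≤ Nat.card {R : QOrd X // ¬ R ≤ m} := by
    refine Nat.card_le_card_of_injective (fun R => ⟨f R.1, h1 R.1 R.2⟩) ?_
    intro R S h
    apply Subtype.ext
    exact h2 R.1 S.1 R.2 S.2 (congrArg Subtype.val h)
  omega

/-! ### the first case: `p` minimal, `q` maximal -/

/-- add the pair `(p, q)` -/
def add (p q : X) (hpq : p ≤ q) (R : QOrd X) : QOrd X where
  rel x y := R.rel x y ∨ (R.rel x p ∧ R.rel q y)
  refl x := Or.inl (R.refl x)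
  trans x y z h1 h2 := by
    rcases h1 with h1 | h1
    · rcases h2 with h2 | h2
      · exact Or.inl (R.trans _ _ _ h1 h2)
      · exact Or.inr ⟨R.trans _ _ _ h1 h2.1, h2.2⟩
    · rcases h2 with h2 | h2
      · exact Or.inr ⟨h1.1, R.trans _ _ _ h1.2 h2⟩
      · exact Or.inr ⟨h1.1, h2.2⟩
  le x y h := by
    rcases h with h | h
    · exact R.le _ _ h
    · exact (R.le _ _ h.1).trans (hpq.trans (R.le _ _ h.2))

theorem case_one [Finite X] {p q : X} (hpq : p ≤ q) (hqp : ¬ q ≤ p) (hp : ∀ x, x ≤ p → p ≤ x)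
    (hq : ∀ y, q ≤ y → y ≤ q) :
    ∃ m : QOrd X, InfIrred m ∧ 2 * Nat.card {R : QOrd X // R ≤ m} ≤ Nat.card (QOrd X) := by
  set U : Set X := {x | x ≤ p} with hU
  set V : Set X := {y | y ≤ q ∧ ¬ y ≤ p} with hV
  have h1 : Disjoint U V := Set.disjoint_left.2 fun x hx hx' => hx'.2 hx
  have h2 : ∀ x y z, x ∈ U → x ≤ y → y ≤ z → z ∈ V → y ∈ U ∨ y ∈ V := by
    intro x y z hx hxy hyz hz
    by_cases h : y ≤ p
    · exact Or.inl h
    · exact Or.inr ⟨hyz.trans hz.1, h⟩
  have hpU : p ∈ U := le_refl p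
  have hqV : q ∈ V := ⟨le_refl q, hqp⟩
  refine ⟨mm U V h1 h2, mm_irred h1 h2 hpU hqV hpq (fun u hu => hp u hu) (fun v hv => hv.1), ?_⟩
  refine half' (add p q hpq) ?_ ?_
  · intro R _ h
    rw [le_mm] at h
    exact h p q hpU hqV (Or.inr ⟨R.refl p, R.refl q⟩)
  · have key : ∀ R : QOrd X, R ≤ mm U V h1 h2 → ∀ x y,
        (R.rel x y ↔ (add p q hpq R).rel x y ∧ ¬ (x ∈ U ∧ y ∈ V)) := by
      intro R hR x y
      rw [le_mm] at hR
      constructor
      · intro h
        exact ⟨Or.inl h, fun h3 => hR x y h3.1 h3.2 h⟩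
      · rintro ⟨h | h, h3⟩
        · exact h
        · exfalso
          apply h3
          refine ⟨R.le _ _ h.1, hq y (R.le _ _ h.2), fun h4 => hqp ?_⟩
          exact (R.le _ _ h.2).trans h4
    intro R S hR hS e
    ext x y
    rw [key R hR, key S hS, e]

/-! ### the second case: an equivalence relation -/

/-- put `p` into the class of `q` -/
def glue (p q : X) (τ : X → X) (hτ : ∀ x, τ x ≤ x ∧ x ≤ τ x) (R : QOrd X) : QOrd X where
  rel x y := R.rel (τ x) (τ y)
  refl x := R.refl _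
  trans x y z h1 h2 := R.trans _ _ _ h1 h2
  le x y h := (hτ x).2.trans ((R.le _ _ h).trans (hτ y).1)

/-- put `p` below the points that are not below `p` -/
def flip (p : X) (R : QOrd X) : QOrd X where
  rel x y := x = y ∨ (x ≠ p ∧ y ≠ p ∧ R.rel x y) ∨ (x = p ∧ p ≤ y ∧ ¬ R.rel y p)
  refl x := Or.inl rfl
  trans x y z h1 h2 := by
    rcases h1 with rfl | h1 | h1
    · exact h2
    · rcases h2 with rfl | h2 | h2
      · exact Or.inr (Or.inl h1)
      · exact Or.inr (Or.inl ⟨h1.1, h2.2.1, R.trans _ _ _ h1.2.2 h2.2.2⟩)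
      · exact absurd h2.1 h1.2.1
    · rcases h2 with rfl | h2 | h2
      · exact Or.inr (Or.inr h1)
      · refine Or.inr (Or.inr ⟨h1.1, h1.2.1.trans (R.le _ _ h2.2.2), fun h => h1.2.2 ?_⟩)
        exact R.trans _ _ _ h2.2.2 h
      · exfalso
        apply h1.2.2
        rw [h2.1]
        exact R.refl p
  le x y h := by
    rcases h with rfl | h | h
    · exact le_rfl
    · exact R.le _ _ h.2.2
    · rw [h.1]; exact h.2.1

open Classical in
theorem case_two [Finite X] (hs : ∀ x y : X, x ≤ y → y ≤ x) {p q : X} (hpq : p ≤ q) (hne : p ≠ q) :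
    ∃ m : QOrd X, InfIrred m ∧ 2 * Nat.card {R : QOrd X // R ≤ m} ≤ Nat.card (QOrd X) := by
  set U : Set X := {p} with hU
  set V : Set X := {y | p ≤ y ∧ y ≠ p} with hV
  have h1 : Disjoint U V := Set.disjoint_left.2 fun x hx hx' => hx'.2 hx
  have h2 : ∀ x y z, x ∈ U → x ≤ y → y ≤ z → z ∈ V → y ∈ U ∨ y ∈ V := by
    intro x y z hx hxy hyz hz
    have hx' : x = p := hx
    by_cases h : y = p
    · exact Or.inl h
    · exact Or.inr ⟨hx' ▸ hxy, h⟩
  have hpU : p ∈ U := rfl
  have hqV : q ∈ V := ⟨hpq, hne.symm⟩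
  refine ⟨mm U V h1 h2, mm_irred h1 h2 hpU hqV hpq (fun u hu => by
    have hu' : u = p := hu
    rw [hu']) (fun v hv => (hs p v hv.1).trans hpq), ?_⟩
  have hm : ∀ R : QOrd X, R ≤ mm U V h1 h2 → ∀ y, R.rel p y → y = p := by
    intro R hR y hy
    rw [le_mm] at hR
    by_contra h
    exact hR p y hpU ⟨R.le _ _ hy, h⟩ hy
  have hτ : ∀ x : X, (if x = p then q else x) ≤ x ∧ x ≤ (if x = p then q else x) := by
    intro x
    by_cases hx : x = p
    · rw [if_pos hx, hx]; exact ⟨hs _ _ hpq, hpq⟩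
    · rw [if_neg hx]; exact ⟨le_rfl, le_rfl⟩
  refine half' (fun R => if (∀ y, p ≤ y → R.rel y p) then glue p q _ hτ R else flip p R) ?_ ?_
  · intro R hR
    by_cases h3 : ∀ y, p ≤ y → R.rel y p
    · simp only [if_pos h3]
      intro h4
      rw [le_mm] at h4
      refine h4 p q hpU hqV ?_
      change R.rel (if p = p then q else p) (if q = p then q else q)
      rw [if_pos rfl, if_neg hne.symm]
      exact R.refl q
    · simp only [if_neg h3]
      push Not at h3
      obtain ⟨y, hy, hy'⟩ := h3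
      intro h4
      rw [le_mm] at h4
      refine h4 p y hpU ⟨hy, fun h => hy' (by rw [h]; exact R.refl p)⟩ ?_
      exact Or.inr (Or.inr ⟨rfl, hy, hy'⟩)
  · have key : ∀ R : QOrd X,
        ((if (∀ y, p ≤ y → R.rel y p) then glue p q _ hτ R else flip p R).rel q p ↔
          ∀ y, p ≤ y → R.rel y p) := by
      intro R
      by_cases h3 : ∀ y, p ≤ y → R.rel y p
      · simp only [if_pos h3]
        refine ⟨fun _ => h3, fun _ => ?_⟩
        change R.rel (if q = p then q else q) (if p = p then q else p)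
        rw [if_pos rfl, if_neg hne.symm]
        exact R.refl q
      · simp only [if_neg h3]
        refine ⟨fun h => ?_, fun h => absurd h h3⟩
        rcases h with h | h | h
        · exact absurd h.symm hne
        · exact absurd rfl h.2.1
        · exact absurd h.1.symm hne
    intro R S hR hS e
    have e0 : (if (∀ y, p ≤ y → R.rel y p) then glue p q _ hτ R else flip p R) =
        (if (∀ y, p ≤ y → S.rel y p) then glue p q _ hτ S else flip p S) := e
    have e1 : (∀ y, p ≤ y → R.rel y p) ↔ ∀ y, p ≤ y → S.rel y p := by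
      rw [← key R, ← key S, e0]
    by_cases h3 : ∀ y, p ≤ y → R.rel y p
    · have h4 := e1.1 h3
      rw [if_pos h3, if_pos h4] at e0
      ext x y
      by_cases hx : x = p
      · rw [hx]
        constructor
        · intro h; rw [hm R hR y h]; exact S.refl p
        · intro h; rw [hm S hS y h]; exact R.refl p
      · by_cases hy : y = p
        · rw [hy]
          constructor
          · intro h; exact h4 x (hs _ _ (R.le _ _ h))
          · intro h; exact h3 x (hs _ _ (S.le _ _ h))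
        · have h5 : ∀ T : QOrd X, ((glue p q _ hτ T).rel x y ↔ T.rel x y) := by
            intro T
            change T.rel (if x = p then q else x) (if y = p then q else y) ↔ _
            rw [if_neg hx, if_neg hy]
          rw [← h5 R, ← h5 S, e0]
    · have h4 : ¬ ∀ y, p ≤ y → S.rel y p := fun h5 => h3 (e1.2 h5)
      rw [if_neg h3, if_neg h4] at e0
      ext x y
      by_cases hx : x = p
      · rw [hx]
        constructor
        · intro h; rw [hm R hR y h]; exact S.refl p
        · intro h; rw [hm S hS y h]; exact R.refl p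
      · by_cases hy : y = p
        · rw [hy]
          have h5 : ∀ T : QOrd X, (T.rel x p ↔ p ≤ x ∧ ¬ (flip p T).rel p x) := by
            intro T
            constructor
            · intro h
              refine ⟨hs _ _ (T.le _ _ h), ?_⟩
              rintro (h6 | h6 | h6)
              · exact hx h6.symm
              · exact h6.1 rfl
              · exact h6.2.2 h
            · rintro ⟨h6, h7⟩
              by_contra h8
              exact h7 (Or.inr (Or.inr ⟨rfl, h6, h8⟩))
          rw [h5 R, h5 S, e0]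
        · have h5 : ∀ T : QOrd X, (T.rel x y ↔ (flip p T).rel x y) := by
            intro T
            constructor
            · intro h
              exact Or.inr (Or.inl ⟨hx, hy, h⟩)
            · rintro (h6 | h6 | h6)
              · rw [h6]; exact T.refl y
              · exact h6.2.2
              · exact absurd h6.1 hx
          rw [h5 R, h5 S, e0]

/-- **the dual form** -/
theorem exists_meet [Finite X] (hX : ∃ a b : X, a ≠ b ∧ a ≤ b) :
    ∃ m : QOrd X, InfIrred m ∧ 2 * Nat.card {R : QOrd X // R ≤ m} ≤ Nat.card (QOrd X) := by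
  by_cases h : ∀ x y : X, x ≤ y → y ≤ x
  · obtain ⟨a, b, h1, h2⟩ := hX
    exact case_two h h2 h1
  · push Not at h
    obtain ⟨a, b, h1, h2⟩ := h
    obtain ⟨p, hp⟩ := Set.Finite.exists_minimal (Set.toFinite {y : X | y ≤ a}) ⟨a, le_refl a⟩
    obtain ⟨q, hq⟩ := Set.Finite.exists_maximal (Set.toFinite {y : X | b ≤ y}) ⟨b, le_refl b⟩
    have hpa : p ≤ a := hp.1
    have hbq : b ≤ q := hq.1
    refine case_one (p := p) (q := q) (hpa.trans (h1.trans hbq)) ?_ ?_ ?_
    · intro h3
      exact h2 (hbq.trans (h3.trans hpa))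
    · intro x hx
      exact hp.2 (show x ≤ a from hx.trans hpa) hx
    · intro y hy
      exact hq.2 (show b ≤ y from hbq.trans hy) hy

end Pool.Agent.H579U
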